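import Pool.Agent.helper97.AS.Spec

/-!
# as:EXT: periodic extension of a stretch
-/

set_option autoImplicit false

namespace Pool.Agent.helper97.AS

open Pool.Agent.helper20.LB (Step F IsSq Same Bd co)

theorem EXT : EXT_stmt := by
  intro f x p M hf hp hM hper
  have hp0 : 0 < p := by omega
  refine ⟨fun y => f (x + (y - x) % p) + (f (x + p) - f x) * ((y - x) / p), ⟨?_, hp, ?_⟩, ?_⟩
  · intro y
    show f (x + (y - x) % p) + (f (x + p) - f x) * ((y - x) / p) ≤
        f (x + (y + 1 - x) % p) + (f (x + p) - f x) * ((y + 1 - x) / p) ∧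
      f (x + (y + 1 - x) % p) + (f (x + p) - f x) * ((y + 1 - x) / p) ≤
        f (x + (y - x) % p) + (f (x + p) - f x) * ((y - x) / p) + 1
    have h1 := Int.emod_add_mul_ediv (y - x) p
    have h2 := Int.emod_nonneg (y - x) (by omega : p ≠ 0)
    have h3 := Int.emod_lt_of_pos (y - x) hp0
    generalize (y - x) % p = e at h1 h2 h3 ⊢
    generalize (y - x) / p = k at h1 ⊢
    by_cases he : e + 1 < p
    · have h4 : (y + 1 - x) / p = k ∧ (y + 1 - x) % p = e + 1 := by
        rw [Int.ediv_emod_unique hp0]
        refine ⟨?_, by omega, he⟩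
        linarith
      rw [h4.1, h4.2, ← add_assoc]
      have h5 := hf (x + e)
      constructor <;> linarith [h5.1, h5.2]
    · have h4 : (y + 1 - x) / p = k + 1 ∧ (y + 1 - x) % p = 0 := by
        rw [Int.ediv_emod_unique hp0]
        refine ⟨?_, le_refl _, hp0⟩
        have : e + 1 = p := by omega
        rw [mul_add]
        linarith
      rw [h4.1, h4.2]
      have h6 : x + e + 1 = x + p := by omega
      have h5 := hf (x + e)
      rw [h6] at h5
      rw [add_zero, mul_add]
      constructor <;> linarith [h5.1, h5.2]
  · intro y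
    show f (x + (y + p - x) % p) + (f (x + p) - f x) * ((y + p - x) / p) =
      f (x + (y - x) % p) + (f (x + p) - f x) * ((y - x) / p) + (f (x + p) - f x)
    have h1 : y + p - x = (y - x) + p := by ring
    rw [h1, Int.add_emod_right, Int.add_ediv_of_dvd_right (dvd_refl p), Int.ediv_self (by omega)]
    ring
  · have key : ∀ (k : ℕ) (e : ℤ), 0 ≤ e → e < p → x + e + k * p ≤ x + p + M →
        f (x + e + k * p) = f (x + e) + (f (x + p) - f x) * k := by
      intro k
      induction k with
      | zero =>
        intro e _ _ _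
        simp
      | succ n ih =>
        intro e he he2 hle
        have h0 : (0 : ℤ) ≤ (n : ℤ) * p := mul_nonneg (Int.natCast_nonneg n) (by omega)
        have h1 : x + e + ((n + 1 : ℕ) : ℤ) * p = x + e + n * p + p := by
          push_cast
          ring
        rw [h1] at hle ⊢
        rw [hper (x + e + n * p) (by omega) (by omega), ih e he he2 (by omega)]
        push_cast
        ring
    intro y hy1 hy2
    show f (x + (y - x) % p) + (f (x + p) - f x) * ((y - x) / p) = f y
    have h1 := Int.emod_add_mul_ediv (y - x) p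
    have h2 := Int.emod_nonneg (y - x) (by omega : p ≠ 0)
    have h3 := Int.emod_lt_of_pos (y - x) hp0
    have h4 : 0 ≤ (y - x) / p := Int.ediv_nonneg (by omega) (by omega)
    generalize (y - x) % p = e at h1 h2 h3 ⊢
    generalize (y - x) / p = k at h1 h4 ⊢
    obtain ⟨m, rfl⟩ := Int.eq_ofNat_of_zero_le h4
    have h5 : y = x + e + m * p := by
      have : (m : ℤ) * p = p * m := mul_comm _ _
      linarith
    have h6 := key m e h2 h3 (by rw [← h5]; exact hy2)
    rw [h5, h6]

end Pool.Agent.helper97.AS
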