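import Pool.Agent.helper97.AS.Spec

/-!
# as:LIN: the two families of LVL
-/

set_option autoImplicit false

namespace Pool.Agent.helper97.AS

open Pool.Agent.helper20.LB (Step F IsSq Same Bd co)

theorem LIN_aux (T t : ℤ) (h1 : 1 ≤ t) (h2 : t ≤ kk T) : 2 * t + 1 ≤ T := by
  unfold kk at h2
  omega

theorem LIN_co (f : ℤ → ℤ) (p τ : ℤ) (h : Per f p τ) : Per (co f) p (p - τ) := by
  obtain ⟨h1, h2, h3⟩ := h
  refine ⟨?_, h2, ?_⟩
  · intro x
    have h4 := h1 x
    unfold co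
    constructor <;> linarith [h4.1, h4.2]
  · intro x
    have h4 := h3 x
    unfold co
    linarith

theorem LIN_tt (f : ℤ → ℤ) (x M : ℤ) : TT (co f) x M = M + 2 - TT f x M := by
  unfold TT co
  ring

theorem LIN (hLVL : LVL_stmt) : LIN_stmt := by
  intro f p τ x M hP hM
  refine ⟨?_, ?_⟩
  · intro t h1 h2
    exact hLVL f p τ x M t hP hM h1 (LIN_aux _ _ h1 h2)
  · intro t h1 h2
    refine hLVL (co f) p (p - τ) x M t (LIN_co f p τ hP) hM h1 ?_
    rw [LIN_tt]
    exact LIN_aux _ _ h1 h2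

end Pool.Agent.helper97.AS
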